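import Mathlib

/-!
Enumeration reducibility, uniformly e-invariant maps, the cone preorder, and Wadge
reducibility on the Scott domain.
-/

set_option autoImplicit false

namespace Pool.Agent.H321Z.Wadge

/-- The canonical finite set `D_u`: the positions of the binary digits `1` of `u`. -/
def D (u : ℕ) : Set ℕ := {i | u.testBit i = true}

/-- The `j`-th computably enumerable set: the domain of the `j`-th partial recursive function. -/
def W (j : ℕ) : Set ℕ := {n | ((Denumerable.ofNat Nat.Partrec.Code j).eval n).Dom}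

/-- The `j`-th enumeration operator `Γ_j`. -/
def Gam (j : ℕ) (B : Set ℕ) : Set ℕ := {n | ∃ u : ℕ, Nat.pair n u ∈ W j ∧ D u ⊆ B}

/-- Enumeration reducibility `A ≤_e B`. -/
def ERed (A B : Set ℕ) : Prop := ∃ j : ℕ, A = Gam j B

/-- `A ≡_e B` via `k = ⟨i, j⟩`. -/
def EVia (k : ℕ) (A B : Set ℕ) : Prop := A = Gam k.unpair.1 B ∧ B = Gam k.unpair.2 A

/-- `f` is uniformly e-invariant. -/
def UnifInv (f : Set ℕ → Set ℕ) : Prop :=
  ∃ u : ℕ → ℕ, ∀ (k : ℕ) (A B : Set ℕ), EVia k A B → EVia (u k) (f A) (f B)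

/-- The join `A ⊕ B = {2n : n ∈ A} ∪ {2n+1 : n ∈ B}`. -/
def join (A B : Set ℕ) : Set ℕ := {n | (n % 2 = 0 ∧ n / 2 ∈ A) ∨ (n % 2 = 1 ∧ n / 2 ∈ B)}

/-- Comparison on an upper cone. For `rel = false` this is `f ≤_e^▽ g`: `f X ≤_e g X` for all
`X ≥_e A`. For `rel = true` the base of the cone may also be used: `f X ≤_e g X ⊕ A`. -/
def ConeLE (rel : Bool) (f g : Set ℕ → Set ℕ) : Prop :=
  ∃ A : Set ℕ, ∀ X : Set ℕ, ERed A X → ERed (f X) (if rel = true then join (g X) A else g X)

/-- The topology of the Scott domain, with basis the sets `[F] = {X : F ⊆ X}`, `F` finite. -/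
def scott : TopologicalSpace (Set ℕ) :=
  TopologicalSpace.generateFrom {U | ∃ F : Finset ℕ, U = {X : Set ℕ | (F : Set ℕ) ⊆ X}}

/-- Wadge reducibility on the Scott domain. -/
def WRed (S T : Set (Set ℕ)) : Prop :=
  ∃ h : Set ℕ → Set ℕ, @Continuous (Set ℕ) (Set ℕ) scott scott h ∧ S = h ⁻¹' T

/-- For `dual = false` this is Wadge reducibility `S ≤_W T`. For `dual = true` every class is
identified with its dual class: `S ≤_W T` or `S ≤_W Tᶜ`. -/
def WLE (dual : Bool) (S T : Set (Set ℕ)) : Prop := WRed S T ∨ (dual = true ∧ WRed S Tᶜ)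

/-- Borel subsets of the Scott domain. -/
def IsBorel (S : Set (Set ℕ)) : Prop := @MeasurableSet (Set ℕ) (@borel (Set ℕ) scott) S

end Pool.Agent.H321Z.Wadge
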