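import Pool.Agent.H321Z.Wadge.Defs
import Pool.Agent.Helper446.RE

set_option autoImplicit false

namespace Pool.Agent.H321Z.Wadge

open Pool.Agent.Helper446

theorem lt_of_mem_D {u i : ℕ} (h : i ∈ D u) : i < u :=
  lt_of_lt_of_le Nat.lt_two_pow_self (Nat.ge_two_pow_of_testBit h)

theorem D_finite (u : ℕ) : (D u).Finite :=
  (Set.finite_lt_nat u).subset fun _ h => lt_of_mem_D h

theorem exists_D (F : Finset ℕ) : ∃ u, D u = F := by
  refine ⟨Finset.equivBitIndices.symm F, ?_⟩
  ext i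
  have h := Finset.equivBitIndices.apply_symm_apply F
  rw [Finset.equivBitIndices_apply] at h
  have h2 : i ∈ F ↔ i ∈ (Finset.equivBitIndices.symm F).bitIndices.toFinset := by rw [h]
  rw [Finset.mem_coe, h2, List.mem_toFinset, Nat.mem_bitIndices]
  rfl

theorem computable_testBit : Computable₂ (fun u i : ℕ => u.testBit i) := by
  have h1 : Primrec₂ (fun u i : ℕ => u / 2 ^ i % 2) :=
    Primrec.nat_mod.comp (Primrec.nat_div.comp Primrec.fst
      ((Primrec₂.unpaired'.1 Nat.Primrec.pow).comp (Primrec.const 2) Primrec.snd))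
      (Primrec.const 2)
  have h2 : Primrec₂ (fun u i : ℕ => decide (u / 2 ^ i % 2 = 1)) :=
    (Primrec.eq.comp h1 (Primrec.const 1)).decide
  refine h2.to_comp.of_eq fun x => ?_
  exact (Nat.testBit_eq_decide_div_mod_eq).symm

theorem re_mem_D {α : Type} [Primcodable α] {f g : α → ℕ} (hf : Computable f) (hg : Computable g) :
    REPred fun a => f a ∈ D (g a) :=
  RE.of_bool (computable_testBit.comp hg hf)

theorem re_not_mem_D {α : Type} [Primcodable α] {f g : α → ℕ} (hf : Computable f)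
    (hg : Computable g) : REPred fun a => f a ∉ D (g a) := by
  have := RE.ne (computable_testBit.comp hg hf) (Computable.const true)
  exact this

/-- `D v ⊆ R a` is r.e. when membership in `R a` is. -/
theorem re_D_subset {α : Type} [Primcodable α] {R : α → Set ℕ}
    (hR : REPred fun x : α × ℕ => x.2 ∈ R x.1) {v : α → ℕ} (hv : Computable v) :
    REPred fun a => D (v a) ⊆ R a := by
  have h : REPred fun a => ∀ i < v a, i ∉ D (v a) ∨ i ∈ R a := by
    refine RE.all_lt (p := fun a i => i ∉ D (v a) ∨ i ∈ R a) ?_ hv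
    exact RE.or (re_not_mem_D Computable.snd (hv.comp Computable.fst)) hR
  refine h.of_eq fun a => ⟨fun h i hi => (h i (lt_of_mem_D hi)).resolve_left (fun h => h hi),
    fun h i _ => ?_⟩
  by_cases hi : i ∈ D (v a)
  · exact Or.inr (h hi)
  · exact Or.inl hi

theorem re_W (j : ℕ) : REPred fun n => n ∈ W j :=
  (Nat.Partrec.Code.eval_part.comp (Computable.const _) Computable.id).dom_re

theorem exists_W {p : ℕ → Prop} (hp : REPred p) : ∃ j, ∀ n, n ∈ W j ↔ p n := by
  obtain ⟨c, hc⟩ := Nat.Partrec.Code.exists_code.1 hp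
  refine ⟨Encodable.encode c, fun n => ?_⟩
  simp only [W, Set.mem_ofPred_eq, Denumerable.ofNat_encode, hc]
  simp [Part.assert]

/-- An enumeration operator, extensionally. -/
def IsOp (G : Set ℕ → Set ℕ) : Prop := ∃ j, ∀ X, G X = Gam j X

structure Good (G : Set ℕ → Set ℕ) : Prop where
  mono : Monotone G
  fin : ∀ X n, n ∈ G X → ∃ F : Finset ℕ, (F : Set ℕ) ⊆ X ∧ n ∈ G F
  re : REPred fun x : ℕ × ℕ => x.1 ∈ G (D x.2)

theorem Good.reComp {G : Set ℕ → Set ℕ} (h : Good G) {α : Type} [Primcodable α] {f g : α → ℕ}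
    (hf : Computable f) (hg : Computable g) : REPred fun a => f a ∈ G (D (g a)) :=
  (RE.comp h.re (hf.pair hg)).of_eq fun _ => Iff.rfl

theorem Good.isOp {G : Set ℕ → Set ℕ} (h : Good G) : IsOp G := by
  obtain ⟨j, hj⟩ := exists_W (p := fun n => n.unpair.1 ∈ G (D n.unpair.2))
    (RE.comp h.re Computable.unpair)
  refine ⟨j, fun X => ?_⟩
  ext n
  simp only [Gam, Set.mem_ofPred_eq, hj, Nat.unpair_pair]
  constructor
  · intro hn
    obtain ⟨F, hF, hnF⟩ := h.fin X n hn
    obtain ⟨u, hu⟩ := exists_D F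
    exact ⟨u, by rwa [hu], by rwa [hu]⟩
  · rintro ⟨u, hu, hX⟩
    exact h.mono hX hu

theorem good_Gam (j : ℕ) : Good (Gam j) := by
  refine ⟨fun X Y hXY n ⟨u, hu, hX⟩ => ⟨u, hu, hX.trans hXY⟩, ?_, ?_⟩
  · rintro X n ⟨u, hu, hX⟩
    refine ⟨(D_finite u).toFinset, by simpa using hX, u, hu, by simp⟩
  · refine RE.exN (p := fun (x : ℕ × ℕ) u => Nat.pair x.1 u ∈ W j ∧ D u ⊆ D x.2) ?_
    refine RE.and ?_ ?_
    · exact RE.comp (re_W j) (Primrec₂.natPair.to_comp.comp
        (Computable.fst.comp Computable.fst) Computable.snd)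
    · refine re_D_subset (R := fun x : (ℕ × ℕ) × ℕ => D x.1.2) ?_ Computable.snd
      exact re_mem_D Computable.snd (Computable.snd.comp (Computable.fst.comp Computable.fst))

theorem good_id : Good (fun X => X) := by
  refine ⟨fun _ _ h => h, fun X n hn => ⟨{n}, by simpa using hn, by simp⟩, ?_⟩
  exact re_mem_D Computable.fst Computable.snd

theorem Good.subset_fin {G : Set ℕ → Set ℕ} (h : Good G) (X : Set ℕ) (F : Finset ℕ)
    (hF : (F : Set ℕ) ⊆ G X) : ∃ E : Finset ℕ, (E : Set ℕ) ⊆ X ∧ (F : Set ℕ) ⊆ G E := by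
  classical
  induction F using Finset.induction_on with
  | empty => exact ⟨∅, by simp, by simp⟩
  | insert a F _ ih =>
    rw [Finset.coe_insert, Set.insert_subset_iff] at hF
    obtain ⟨E, hE, hFE⟩ := ih hF.2
    obtain ⟨E', hE', ha⟩ := h.fin X a hF.1
    refine ⟨E ∪ E', by simp [hE, hE'], ?_⟩
    rw [Finset.coe_insert, Set.insert_subset_iff]
    exact ⟨h.mono (by simp) ha, hFE.trans (h.mono (by simp))⟩

theorem Good.comp {G H : Set ℕ → Set ℕ} (hG : Good G) (hH : Good H) :
    Good (fun X => G (H X)) := by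
  refine ⟨hG.mono.comp hH.mono, fun X n hn => ?_, ?_⟩
  · obtain ⟨F, hF, hnF⟩ := hG.fin _ n hn
    obtain ⟨E, hE, hFE⟩ := hH.subset_fin X F hF
    exact ⟨E, hE, hG.mono hFE hnF⟩
  · have h : REPred fun x : ℕ × ℕ => ∃ v, x.1 ∈ G (D v) ∧ D v ⊆ H (D x.2) := by
      refine RE.exN (p := fun (x : ℕ × ℕ) v => x.1 ∈ G (D v) ∧ D v ⊆ H (D x.2)) ?_
      refine RE.and ?_ ?_
      · exact hG.reComp (Computable.fst.comp Computable.fst) Computable.snd
      · refine re_D_subset (R := fun x : (ℕ × ℕ) × ℕ => H (D x.1.2)) ?_ Computable.snd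
        exact hH.reComp Computable.snd
          (Computable.snd.comp (Computable.fst.comp Computable.fst))
    refine h.of_eq fun x => ⟨fun ⟨v, h1, h2⟩ => hG.mono h2 h1, fun hx => ?_⟩
    obtain ⟨F, hF, hnF⟩ := hG.fin _ _ hx
    obtain ⟨v, hv⟩ := exists_D F
    exact ⟨v, by rwa [hv], by rwa [hv]⟩

theorem good_pull {f : ℕ → ℕ} (hf : Computable f) : Good (fun X => {n | f n ∈ X}) := by
  refine ⟨fun _ _ h n hn => h hn, fun X n hn => ⟨{f n}, by simpa using hn, by simp⟩, ?_⟩
  exact re_mem_D (hf.comp Computable.fst) Computable.snd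

theorem good_left : Good (fun X => {n | 2 * n ∈ X}) :=
  good_pull (Primrec.nat_mul.comp (Primrec.const 2) Primrec.id).to_comp

theorem good_right : Good (fun X => {n | 2 * n + 1 ∈ X}) :=
  good_pull (Primrec.succ.comp (Primrec.nat_mul.comp (Primrec.const 2) Primrec.id)).to_comp

theorem Good.pair {G H : Set ℕ → Set ℕ} (hG : Good G) (hH : Good H) :
    Good (fun X => join (G X) (H X)) := by
  refine ⟨?_, ?_, ?_⟩
  · rintro X Y h n (⟨h1, h2⟩ | ⟨h1, h2⟩)
    · exact Or.inl ⟨h1, hG.mono h h2⟩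
    · exact Or.inr ⟨h1, hH.mono h h2⟩
  · rintro X n (⟨h1, h2⟩ | ⟨h1, h2⟩)
    · obtain ⟨F, hF, h⟩ := hG.fin _ _ h2
      exact ⟨F, hF, Or.inl ⟨h1, h⟩⟩
    · obtain ⟨F, hF, h⟩ := hH.fin _ _ h2
      exact ⟨F, hF, Or.inr ⟨h1, h⟩⟩
  · have hm : Computable fun x : ℕ × ℕ => x.1 % 2 :=
      (Primrec.nat_mod.comp Primrec.fst (Primrec.const 2)).to_comp
    have hd : Computable fun x : ℕ × ℕ => x.1 / 2 :=
      (Primrec.nat_div.comp Primrec.fst (Primrec.const 2)).to_comp
    have h1 := RE.or (RE.and (RE.eq hm (Computable.const 0)) (hG.reComp hd Computable.snd))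
      (RE.and (RE.eq hm (Computable.const 1)) (hH.reComp hd Computable.snd))
    exact h1.of_eq fun _ => Iff.rfl

theorem left_join (A B : Set ℕ) : {n | 2 * n ∈ join A B} = A := by
  ext n; simp [join]

theorem right_join (A B : Set ℕ) : {n | 2 * n + 1 ∈ join A B} = B := by
  ext n
  have h2 : (2 * n + 1) / 2 = n := by omega
  simp [join, h2]

theorem Good.ered {G : Set ℕ → Set ℕ} (h : Good G) (X : Set ℕ) : ERed (G X) X := by
  obtain ⟨j, hj⟩ := h.isOp
  exact ⟨j, hj X⟩

theorem ERed.refl (A : Set ℕ) : ERed A A := good_id.ered A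

theorem ERed.trans {A B C : Set ℕ} (h1 : ERed A B) (h2 : ERed B C) : ERed A C := by
  obtain ⟨i, rfl⟩ := h1
  obtain ⟨j, rfl⟩ := h2
  exact ((good_Gam i).comp (good_Gam j)).ered C

theorem ered_left (A B : Set ℕ) : ERed A (join A B) := by
  have := good_left.ered (join A B)
  rwa [left_join] at this

theorem ered_right (A B : Set ℕ) : ERed B (join A B) := by
  have := good_right.ered (join A B)
  rwa [right_join] at this

theorem ERed.join_le {A B C : Set ℕ} (h1 : ERed A C) (h2 : ERed B C) : ERed (join A B) C := by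
  obtain ⟨i, rfl⟩ := h1
  obtain ⟨j, hj⟩ := h2
  rw [hj]
  exact ((good_Gam i).pair (good_Gam j)).ered C

theorem exists_join_index (i j : ℕ) :
    ∃ k, ∀ A B, join (Gam i A) (Gam j B) = Gam k (join A B) := by
  obtain ⟨k, hk⟩ := (((good_Gam i).comp good_left).pair ((good_Gam j).comp good_right)).isOp
  refine ⟨k, fun A B => ?_⟩
  rw [← hk]
  simp only [left_join, right_join]

theorem UnifInv.join {f g : Set ℕ → Set ℕ} (hf : UnifInv f) (hg : UnifInv g) :
    UnifInv (fun X => join (f X) (g X)) := by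
  obtain ⟨u, hu⟩ := hf
  obtain ⟨v, hv⟩ := hg
  choose J hJ using exists_join_index
  refine ⟨fun k => Nat.pair (J (u k).unpair.1 (v k).unpair.1) (J (u k).unpair.2 (v k).unpair.2),
    fun k A B h => ?_⟩
  obtain ⟨h1, h2⟩ := hu k A B h
  obtain ⟨h3, h4⟩ := hv k A B h
  constructor
  · simp only [Nat.unpair_pair]
    rw [← hJ, ← h1, ← h3]
  · simp only [Nat.unpair_pair]
    rw [← hJ, ← h2, ← h4]

theorem ered_base (rel : Bool) (Y A : Set ℕ) : ERed Y (if rel = true then join Y A else Y) := by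
  split_ifs
  · exact ered_left _ _
  · exact ERed.refl _

theorem ConeLE.of_forall {rel : Bool} {f g : Set ℕ → Set ℕ} (h : ∀ X, ERed (f X) (g X)) :
    ConeLE rel f g :=
  ⟨∅, fun X _ => (h X).trans (ered_base rel _ _)⟩

theorem ConeLE.refl (rel : Bool) (f : Set ℕ → Set ℕ) : ConeLE rel f f :=
  ConeLE.of_forall fun _ => ERed.refl _

theorem ConeLE.trans {rel : Bool} {f g h : Set ℕ → Set ℕ} (h1 : ConeLE rel f g)
    (h2 : ConeLE rel g h) : ConeLE rel f h := by
  obtain ⟨A, hA⟩ := h1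
  obtain ⟨B, hB⟩ := h2
  refine ⟨join A B, fun X hX => ?_⟩
  have h1 := hA X ((ered_left A B).trans hX)
  have h2 := hB X ((ered_right A B).trans hX)
  cases rel
  · simp only [Bool.false_eq_true, if_false] at h1 h2 ⊢
    exact h1.trans h2
  · simp only [if_true] at h1 h2 ⊢
    refine h1.trans (ERed.join_le (h2.trans (ERed.join_le (ered_left _ _) ?_)) ?_)
    · exact (ered_right A B).trans (ered_right _ _)
    · exact (ered_left A B).trans (ered_right _ _)

theorem ConeLE.join_le {rel : Bool} {f g h : Set ℕ → Set ℕ} (h1 : ConeLE rel f h)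
    (h2 : ConeLE rel g h) : ConeLE rel (fun X => join (f X) (g X)) h := by
  obtain ⟨A, hA⟩ := h1
  obtain ⟨B, hB⟩ := h2
  refine ⟨join A B, fun X hX => ?_⟩
  have h1 := hA X ((ered_left A B).trans hX)
  have h2 := hB X ((ered_right A B).trans hX)
  cases rel
  · simp only [Bool.false_eq_true, if_false] at h1 h2 ⊢
    exact h1.join_le h2
  · simp only [if_true] at h1 h2 ⊢
    refine ERed.join_le (h1.trans (ERed.join_le (ered_left _ _) ?_))
      (h2.trans (ERed.join_le (ered_left _ _) ?_))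
    · exact (ered_left A B).trans (ered_right _ _)
    · exact (ered_right A B).trans (ered_right _ _)

end Pool.Agent.H321Z.Wadge
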