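import Pool.Agent.H321Z.Wadge.Orders

set_option autoImplicit false

namespace Pool.Agent.H321Z.Wadge

theorem main (dual rel : Bool) (C : Set (Set (Set ℕ)))
    (hC : ∀ S, IsBorel S → S ≠ ∅ → S ≠ Set.univ → S ∈ C)
    (P : (Set ℕ → Set ℕ) → Prop)
    (hP : ∀ f g, P f → P g → P (fun X => join (f X) (g X))) :
    IsEmpty (Antisymmetrization (WPt dual C) (· ≤ ·) ≃o
      Antisymmetrization (FPt rel P) (· ≤ ·)) := by
  refine ⟨fun e => ?_⟩
  let v : Prop → Prop → WPt dual C := fun a b =>
    ⟨V a b, hC _ (isBorel_V a b) (V_ne_empty a b) (V_ne_univ a b)⟩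
  let w : Prop → Prop → Antisymmetrization (WPt dual C) (· ≤ ·) := fun a b =>
    toAntisymmetrization (· ≤ ·) (v a b)
  have hl : ∀ a b, w a a ≤ w a b := fun a b =>
    toAntisymmetrization_le_toAntisymmetrization_iff.2 (Or.inl (wred_left a b))
  have hr : ∀ a b, w b b ≤ w a b := fun a b =>
    toAntisymmetrization_le_toAntisymmetrization_iff.2 (Or.inl (wred_right a b))
  have hj : ∀ x y : Antisymmetrization (FPt rel P) (· ≤ ·),
      ∃ z, x ≤ z ∧ y ≤ z ∧ ∀ u, x ≤ u → y ≤ u → z ≤ u := by
    intro x y
    induction x using Antisymmetrization.ind with | _ f => ?_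
    induction y using Antisymmetrization.ind with | _ g => ?_
    refine ⟨toAntisymmetrization (· ≤ ·) (⟨fun X => join (f.fn X) (g.fn X),
      f.unif.join g.unif, hP _ _ f.prop g.prop⟩ : FPt rel P), ?_, ?_, ?_⟩
    · exact toAntisymmetrization_le_toAntisymmetrization_iff.2
        (ConeLE.of_forall fun X => ered_left _ _)
    · exact toAntisymmetrization_le_toAntisymmetrization_iff.2
        (ConeLE.of_forall fun X => ered_right _ _)
    · intro u h1 h2
      induction u using Antisymmetrization.ind with | _ h => ?_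
      exact toAntisymmetrization_le_toAntisymmetrization_iff.2
        (ConeLE.join_le (toAntisymmetrization_le_toAntisymmetrization_iff.1 h1)
          (toAntisymmetrization_le_toAntisymmetrization_iff.1 h2))
  obtain ⟨z, h1, h2, h3⟩ := hj (e (w False False)) (e (w True True))
  have h4 := h3 (e (w True False)) (e.monotone (hr _ _)) (e.monotone (hl _ _))
  have h5 := h3 (e (w False True)) (e.monotone (hl _ _)) (e.monotone (hr _ _))
  obtain ⟨s, rfl⟩ := e.surjective z
  rw [e.le_iff_le] at h1 h2 h4 h5
  induction s using Antisymmetrization.ind with | _ S => ?_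
  exact no_interpolant (dual := dual) (S := S.set)
    (toAntisymmetrization_le_toAntisymmetrization_iff.1 h1)
    (toAntisymmetrization_le_toAntisymmetrization_iff.1 h2)
    (toAntisymmetrization_le_toAntisymmetrization_iff.1 h4)
    (toAntisymmetrization_le_toAntisymmetrization_iff.1 h5)

end Pool.Agent.H321Z.Wadge
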