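import Pool.Agent.H321Z.Wadge.Defs

set_option autoImplicit false
set_option linter.style.haveILetI false

namespace Pool.Agent.H321Z.Wadge

open Set

theorem isOpen_basic (F : Finset ℕ) : @IsOpen _ scott {X : Set ℕ | (F : Set ℕ) ⊆ X} :=
  TopologicalSpace.isOpen_generateFrom_of_mem ⟨F, rfl⟩

theorem isOpen_mem (n : ℕ) : @IsOpen _ scott {X : Set ℕ | n ∈ X} := by
  have := isOpen_basic {n}
  simpa using this

theorem isUpperSet_of_isOpen {U : Set (Set ℕ)} (h : @IsOpen _ scott U) : IsUpperSet U := by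
  have h' : TopologicalSpace.GenerateOpen
      {U | ∃ F : Finset ℕ, U = {X : Set ℕ | (F : Set ℕ) ⊆ X}} U := h
  clear h
  induction h' with
  | basic s hs =>
    obtain ⟨F, rfl⟩ := hs
    exact fun X Y hXY hX => Set.Subset.trans hX hXY
  | univ => exact isUpperSet_univ
  | inter s t _ _ h1 h2 => exact h1.inter h2
  | sUnion S _ h => exact isUpperSet_sUnion h

theorem monotone_of_continuous {h : Set ℕ → Set ℕ} (hc : @Continuous _ _ scott scott h) :
    Monotone h := by
  intro X Y hXY n hn
  have := isUpperSet_of_isOpen (@Continuous.isOpen_preimage _ _ scott scott h hc _ (isOpen_mem n))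
  exact this hXY hn

theorem continuous_of_mem {h : Set ℕ → Set ℕ}
    (H : ∀ n, @IsOpen _ scott {X : Set ℕ | n ∈ h X}) : @Continuous _ _ scott scott h := by
  letI := scott
  refine continuous_generateFrom_iff.2 ?_
  rintro s ⟨F, rfl⟩
  have : h ⁻¹' {X : Set ℕ | (F : Set ℕ) ⊆ X} = ⋂ n ∈ F, {X : Set ℕ | n ∈ h X} := by
    ext X; simp [Set.subset_def]
  rw [this]
  exact isOpen_biInter_finset fun n _ => H n

theorem continuous_insert : @Continuous _ _ scott scott (fun X => insert 0 X) := by
  letI := scott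
  refine continuous_of_mem fun n => ?_
  by_cases hn : n = 0
  · simp [hn]
  · simpa [hn] using isOpen_mem n

theorem continuous_diff : @Continuous _ _ scott scott (fun X => X \ {0}) := by
  letI := scott
  refine continuous_of_mem fun n => ?_
  by_cases hn : n = 0
  · simp [hn]
  · simpa [hn] using isOpen_mem n

theorem WRed.refl (S : Set (Set ℕ)) : WRed S S :=
  ⟨id, @continuous_id _ scott, rfl⟩

theorem WRed.trans {S T U : Set (Set ℕ)} (h1 : WRed S T) (h2 : WRed T U) : WRed S U := by
  obtain ⟨f, hf, rfl⟩ := h1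
  obtain ⟨g, hg, rfl⟩ := h2
  exact ⟨g ∘ f, @Continuous.comp _ _ _ scott scott scott f g hg hf, rfl⟩

theorem WRed.compl {S T : Set (Set ℕ)} (h : WRed S T) : WRed Sᶜ Tᶜ := by
  obtain ⟨f, hf, rfl⟩ := h
  exact ⟨f, hf, rfl⟩

theorem WLE.refl (dual : Bool) (S : Set (Set ℕ)) : WLE dual S S := Or.inl (WRed.refl S)

theorem WLE.trans {dual : Bool} {S T U : Set (Set ℕ)} (h1 : WLE dual S T) (h2 : WLE dual T U) :
    WLE dual S U := by
  rcases h1 with h1 | ⟨hd, h1⟩ <;> rcases h2 with h2 | ⟨hd', h2⟩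
  · exact Or.inl (h1.trans h2)
  · exact Or.inr ⟨hd', h1.trans h2⟩
  · exact Or.inr ⟨hd, h1.trans h2.compl⟩
  · have := h1.trans h2.compl
    rw [compl_compl] at this
    exact Or.inl this

/-- an increasing chain alternating `N` times with respect to `S` -/
def Alt (S : Set (Set ℕ)) (c : ℕ → Set ℕ) (N : ℕ) : Prop :=
  Monotone c ∧ ∀ i < N, ¬ (c i ∈ S ↔ c (i + 1) ∈ S)

def High (S : Set (Set ℕ)) (Y : Set ℕ) : Prop := ∀ N, ∃ c, Alt S c N ∧ c N ⊆ Y

def Low (S : Set (Set ℕ)) (Y : Set ℕ) : Prop := ∀ N, ∃ c, Alt S c N ∧ Y ⊆ c 0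

theorem Alt.compl {S c N} (h : Alt S c N) : Alt Sᶜ c N :=
  ⟨h.1, fun i hi h' => h.2 i hi (by simp only [mem_compl_iff] at h'; tauto)⟩

theorem High.compl {S Y} (h : High S Y) : High Sᶜ Y := fun N =>
  let ⟨c, h1, h2⟩ := h N; ⟨c, h1.compl, h2⟩

theorem Low.compl {S Y} (h : Low S Y) : Low Sᶜ Y := fun N =>
  let ⟨c, h1, h2⟩ := h N; ⟨c, h1.compl, h2⟩

theorem High.map {T Y} {h : Set ℕ → Set ℕ} (hm : Monotone h) (H : High (h ⁻¹' T) Y) :
    High T (h Y) := fun N =>
  let ⟨c, h1, h2⟩ := H N; ⟨h ∘ c, ⟨hm.comp h1.1, h1.2⟩, hm h2⟩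

theorem Low.map {T Y} {h : Set ℕ → Set ℕ} (hm : Monotone h) (H : Low (h ⁻¹' T) Y) :
    Low T (h Y) := fun N =>
  let ⟨c, h1, h2⟩ := H N; ⟨h ∘ c, ⟨hm.comp h1.1, h1.2⟩, hm h2⟩

theorem High.mono {S Y Z} (h : High S Y) (hYZ : Y ⊆ Z) : High S Z := fun N =>
  let ⟨c, h1, h2⟩ := h N; ⟨c, h1, h2.trans hYZ⟩

theorem High.low_empty {S Y} (h : High S Y) : Low S ∅ := fun N =>
  let ⟨c, h1, _⟩ := h N; ⟨c, h1, empty_subset _⟩

theorem Alt.le_of_pot {S c N} (h : Alt S c N) (φ : ℕ → ℕ) (M : ℕ)
    (hmono : ∀ i < N, φ i ≤ φ (i + 1)) (hM : φ N ≤ M)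
    (hcol : ∀ i < N, φ i = φ (i + 1) → (c i ∈ S ↔ c (i + 1) ∈ S)) : N ≤ M := by
  have key : ∀ i ≤ N, i ≤ φ i := by
    intro i
    induction i with
    | zero => intro _; exact Nat.zero_le _
    | succ i ih =>
      intro hi
      have h1 := ih (by omega)
      have h2 := hmono i (by omega)
      have h3 : φ i ≠ φ (i + 1) := fun e => h.2 i (by omega) (hcol i (by omega) e)
      omega
  exact (key N le_rfl).trans hM

/-- two different branches are present -/
def conf (X : Set ℕ) : Prop :=
  ∃ n m k l : ℕ, n ≠ m ∧ Nat.pair n k + 1 ∈ X ∧ Nat.pair m l + 1 ∈ X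

open Classical in
noncomputable def cnt (n : ℕ) (X : Set ℕ) : ℕ :=
  ∑ k ∈ Finset.range n, if Nat.pair n k + 1 ∈ X then 1 else 0

def V (a b : Prop) : Set (Set ℕ) :=
  {X | (¬ conf X ∧ ∃ n, Odd (cnt n X)) ∨ (conf X ∧ 0 ∉ X ∧ a) ∨ (conf X ∧ 0 ∈ X ∧ b)}

theorem conf.mono {X Y : Set ℕ} (h : conf X) (hXY : X ⊆ Y) : conf Y := by
  obtain ⟨n, m, k, l, h1, h2, h3⟩ := h
  exact ⟨n, m, k, l, h1, hXY h2, hXY h3⟩

theorem cnt_le (n : ℕ) (X : Set ℕ) : cnt n X ≤ n := by
  unfold cnt
  refine (Finset.sum_le_sum (g := fun _ => 1) fun k _ => ?_).trans (by simp)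
  split_ifs <;> simp

theorem cnt_mono (n : ℕ) {X Y : Set ℕ} (hXY : X ⊆ Y) : cnt n X ≤ cnt n Y := by
  unfold cnt
  refine Finset.sum_le_sum fun k _ => ?_
  by_cases h : Nat.pair n k + 1 ∈ X
  · simp [h, hXY h]
  · simp [h]

theorem exists_of_odd {n : ℕ} {X : Set ℕ} (h : Odd (cnt n X)) : ∃ k, Nat.pair n k + 1 ∈ X := by
  by_contra hc
  push Not at hc
  have : cnt n X = 0 := by simp [cnt, hc]
  rw [this] at h
  exact absurd h (by decide)

/-- if every branch element of `X` lies in the branch `n`, the colour is the parity of `cnt n` -/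
theorem mem_V_iff {a b : Prop} {n : ℕ} {X : Set ℕ}
    (h : ∀ m k, Nat.pair m k + 1 ∈ X → m = n) : X ∈ V a b ↔ Odd (cnt n X) := by
  have hc : ¬ conf X := by
    rintro ⟨m, m', k, l, h1, h2, h3⟩
    exact h1 ((h m k h2).trans (h m' l h3).symm)
  simp only [V, mem_ofPred_eq, hc, not_false_eq_true, true_and, false_and, or_false]
  constructor
  · rintro ⟨m, hm⟩
    obtain ⟨k, hk⟩ := exists_of_odd hm
    rwa [← h m k hk]
  · exact fun h => ⟨n, h⟩

theorem mem_V_conf {a b : Prop} {X : Set ℕ} (h : conf X) :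
    X ∈ V a b ↔ (0 ∉ X ∧ a) ∨ (0 ∈ X ∧ b) := by
  simp [V, h]

theorem high_univ (a b : Prop) : High (V a b) univ := by
  intro N
  have hc : ∀ i ≤ N, cnt N {x | ∃ k < i, x = Nat.pair N k + 1} = i := by
    intro i hi
    unfold cnt
    have : ∀ k, (Nat.pair N k + 1 ∈ {x | ∃ k < i, x = Nat.pair N k + 1}) ↔ k < i := by
      intro k
      simp only [mem_ofPred_eq, Nat.add_right_cancel_iff, Nat.pair_eq_pair, true_and]
      constructor
      · rintro ⟨k', h1, rfl⟩; exact h1
      · exact fun h => ⟨k, h, rfl⟩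
    simp only [this]
    rw [Finset.sum_boole]
    have : Finset.filter (fun k => k < i) (Finset.range N) = Finset.range i := by
      ext k; simp only [Finset.mem_filter, Finset.mem_range]; omega
    simp [this]
  have hb : ∀ i m k, Nat.pair m k + 1 ∈ {x | ∃ k < i, x = Nat.pair N k + 1} → m = N := by
    rintro i m k ⟨k', -, h⟩
    simp only [Nat.add_right_cancel_iff, Nat.pair_eq_pair] at h
    exact h.1
  refine ⟨fun i => {x | ∃ k < i, x = Nat.pair N k + 1}, ⟨?_, ?_⟩, subset_univ _⟩
  · rintro i j hij x ⟨k, hk, rfl⟩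
    exact ⟨k, lt_of_lt_of_le hk hij, rfl⟩
  · intro i hi
    simp only
    rw [mem_V_iff (hb i), mem_V_iff (hb (i + 1)), hc i (by omega), hc (i + 1) (by omega),
      Nat.odd_add_one]
    tauto

theorem conf_of_high {a b : Prop} {Y : Set ℕ} (h : High (V a b) Y) : conf Y := by
  by_contra hc
  obtain ⟨n, hn⟩ : ∃ n, ∀ m k, Nat.pair m k + 1 ∈ Y → m = n := by
    by_cases he : ∃ n k, Nat.pair n k + 1 ∈ Y
    · obtain ⟨n, k, hk⟩ := he
      refine ⟨n, fun m l hl => ?_⟩
      by_contra hmn
      exact hc ⟨m, n, l, k, hmn, hl, hk⟩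
    · exact ⟨0, fun m k hk => absurd ⟨m, k, hk⟩ he⟩
  obtain ⟨c, h1, h2⟩ := h (n + 1)
  have hb : ∀ i ≤ n + 1, ∀ m k, Nat.pair m k + 1 ∈ c i → m = n :=
    fun i hi m k hk => hn m k (h2 (h1.1 hi hk))
  have := h1.le_of_pot (fun i => cnt n (c i)) n
    (fun i _ => cnt_mono n (h1.1 (Nat.le_succ i))) (cnt_le _ _) (fun i hi e => by
      rw [mem_V_iff (hb i (by omega)), mem_V_iff (hb (i + 1) (by omega))]
      rw [e])
  omega

theorem not_mem_of_low {a b : Prop} {Y : Set ℕ} (h : Low (V a b) Y) : Y ∉ V a b := by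
  classical
  intro hY
  obtain ⟨n, hn⟩ : ∃ n, ∀ X, Y ⊆ X → ¬ conf X → ∀ m k, Nat.pair m k + 1 ∈ X → m = n := by
    by_cases hc : conf Y
    · exact ⟨0, fun X hX h => absurd (hc.mono hX) h⟩
    · have : ∃ n, Odd (cnt n Y) := by simpa [V, hc] using hY
      obtain ⟨n, hn⟩ := this
      obtain ⟨k, hk⟩ := exists_of_odd hn
      refine ⟨n, fun X hX h m l hl => ?_⟩
      by_contra hmn
      exact h ⟨m, n, l, k, hmn, hl, hX hk⟩
  obtain ⟨c, h1, h2⟩ := h (n + 3)
  have hY' : ∀ i, Y ⊆ c i := fun i => h2.trans (h1.1 (Nat.zero_le i))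
  have := h1.le_of_pot
    (fun i => if conf (c i) then (if 0 ∈ c i then n + 2 else n + 1) else cnt n (c i)) (n + 2)
    (fun i _ => by
      have hs : c i ⊆ c (i + 1) := h1.1 (Nat.le_succ i)
      have := cnt_le n (c i)
      have := cnt_mono n hs
      have := fun h : conf (c i) => h.mono hs
      have := @hs 0
      split_ifs <;> first | omega | tauto)
    (by
      have := cnt_le n (c (n + 3))
      split_ifs <;> omega)
    (fun i _ e => by
      have hs : c i ⊆ c (i + 1) := h1.1 (Nat.le_succ i)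
      have h3 := cnt_le n (c i)
      by_cases hc1 : conf (c i)
      · have hc2 := hc1.mono hs
        rw [mem_V_conf hc1, mem_V_conf hc2]
        simp only [hc1, hc2, if_true] at e
        by_cases h0 : 0 ∈ c i <;> by_cases h0' : 0 ∈ c (i + 1) <;> simp [h0, h0'] at e ⊢
      · by_cases hc2 : conf (c (i + 1))
        · simp only [hc1, hc2, if_true, if_false] at e
          split_ifs at e <;> omega
        · simp only [hc1, hc2, if_false] at e
          rw [mem_V_iff (hn _ (hY' i) hc1), mem_V_iff (hn _ (hY' (i + 1)) hc2), e])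
  omega

theorem conf_insert (X : Set ℕ) : conf (insert 0 X) ↔ conf X := by simp [conf]

theorem conf_diff (X : Set ℕ) : conf (X \ {0}) ↔ conf X := by simp [conf]

theorem cnt_insert (n : ℕ) (X : Set ℕ) : cnt n (insert 0 X) = cnt n X := by
  unfold cnt
  refine Finset.sum_congr rfl fun k _ => ?_
  by_cases h : Nat.pair n k + 1 ∈ X <;> simp [h]

theorem cnt_diff (n : ℕ) (X : Set ℕ) : cnt n (X \ {0}) = cnt n X := by
  unfold cnt
  refine Finset.sum_congr rfl fun k _ => ?_
  by_cases h : Nat.pair n k + 1 ∈ X <;> simp [h]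

theorem wred_right (a b : Prop) : WRed (V b b) (V a b) := by
  refine ⟨_, continuous_insert, ?_⟩
  ext X
  simp only [V, mem_ofPred_eq, mem_preimage, conf_insert, cnt_insert, mem_insert_iff, true_or]
  tauto

theorem wred_left (a b : Prop) : WRed (V a a) (V a b) := by
  refine ⟨_, continuous_diff, ?_⟩
  ext X
  simp only [V, mem_ofPred_eq, mem_preimage, conf_diff, cnt_diff, mem_diff, mem_singleton_iff]
  tauto

theorem empty_not_mem (a b : Prop) : ∅ ∉ V a b := not_mem_of_low (high_univ a b).low_empty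

theorem no_interpolant_aux {S : Set (Set ℕ)} (hS : ∅ ∉ S)
    (h1 : WRed (V False False) S ∨ WRed (V False False) Sᶜ)
    (h2 : WRed (V True True) S ∨ WRed (V True True) Sᶜ)
    (h3 : WRed S (V True False) ∨ WRed S (V True False)ᶜ)
    (h4 : WRed S (V False True) ∨ WRed S (V False True)ᶜ) : False := by
  have hH : High S univ := by
    rcases h1 with ⟨h, hc, e⟩ | ⟨h, hc, e⟩
    · have := high_univ False False
      rw [e] at this
      exact (this.map (monotone_of_continuous hc)).mono (subset_univ _)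
    · have := high_univ False False
      rw [e] at this
      have := ((this.map (monotone_of_continuous hc)).mono (subset_univ _)).compl
      rwa [compl_compl] at this
  have hL := hH.low_empty
  have up : ∀ a b, WRed S (V a b) ∨ WRed S (V a b)ᶜ → WRed S (V a b) := by
    rintro a b (h | ⟨h, hc, e⟩)
    · exact h
    · exfalso
      rw [e] at hL hS
      have := (hL.map (monotone_of_continuous hc)).compl
      rw [compl_compl] at this
      exact hS (not_mem_of_low this)
  obtain ⟨f, hf, ef⟩ := up _ _ h3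
  obtain ⟨g, hg, eg⟩ := up _ _ h4
  have hf := monotone_of_continuous hf
  have hg := monotone_of_continuous hg
  have down : ∀ a b, WRed (V a b) S ∨ WRed (V a b) Sᶜ → WRed (V a b) S := by
    rintro a b (h | ⟨h, hc, e⟩)
    · exact h
    · exfalso
      have hl := (high_univ a b).low_empty
      have he := empty_not_mem a b
      rw [e] at hl he
      have := (hl.map (monotone_of_continuous hc)).compl
      rw [compl_compl, ef] at this
      have h5 := not_mem_of_low (this.map hf)
      apply he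
      rw [ef]
      exact h5
  obtain ⟨p, hp, ep⟩ := down _ _ h1
  obtain ⟨q, hq, eq⟩ := down _ _ h2
  have hp := monotone_of_continuous hp
  have hq := monotone_of_continuous hq
  have hcu : conf univ := conf_of_high (high_univ True True)
  have hp1 : High S (p univ) := by
    have := high_univ False False
    rw [ep] at this
    exact this.map hp
  have hp2 : p univ ∉ S := by
    have : univ ∉ V False False := by rw [mem_V_conf hcu]; simp
    rwa [ep] at this
  have hq1 : High S (q univ) := by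
    have := high_univ True True
    rw [eq] at this
    exact this.map hq
  have hq2 : q univ ∈ S := by
    have : univ ∈ V True True := by rw [mem_V_conf hcu]; simp
    rwa [eq] at this
  by_cases hu : univ ∈ S
  · rw [ef] at hp1 hp2 hu
    have c1 := conf_of_high (hp1.map hf)
    have hs : f (p univ) ⊆ f univ := hf (subset_univ _)
    rw [mem_preimage, mem_V_conf c1] at hp2
    rw [mem_preimage, mem_V_conf (c1.mono hs)] at hu
    have := @hs 0
    tauto
  · rw [eg] at hq1 hq2 hu
    have c1 := conf_of_high (hq1.map hg)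
    have hs : g (q univ) ⊆ g univ := hg (subset_univ _)
    rw [mem_preimage, mem_V_conf c1] at hq2
    rw [mem_preimage, mem_V_conf (c1.mono hs)] at hu
    have := @hs 0
    tauto

theorem no_interpolant {dual : Bool} {S : Set (Set ℕ)}
    (h1 : WLE dual (V False False) S) (h2 : WLE dual (V True True) S)
    (h3 : WLE dual S (V True False)) (h4 : WLE dual S (V False True)) : False := by
  have e : ∀ {A B}, WLE dual A B → WRed A B ∨ WRed A Bᶜ := fun h => h.imp id And.right
  have h1 := e h1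
  have h2 := e h2
  have h3 := e h3
  have h4 := e h4
  by_cases hS : ∅ ∈ S
  · have e2 : ∀ {B}, WRed S B ∨ WRed S Bᶜ → WRed Sᶜ B ∨ WRed Sᶜ Bᶜ := by
      rintro B (h | h)
      · exact Or.inr h.compl
      · have := h.compl
        rw [compl_compl] at this
        exact Or.inl this
    refine no_interpolant_aux (S := Sᶜ) (by simpa using hS) ?_ ?_ (e2 h3) (e2 h4)
    · rw [compl_compl]; exact h1.symm
    · rw [compl_compl]; exact h2.symm
  · exact no_interpolant_aux hS h1 h2 h3 h4

theorem V_ne_univ (a b : Prop) : V a b ≠ univ := fun h => empty_not_mem a b (by rw [h]; trivial)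

theorem V_ne_empty (a b : Prop) : V a b ≠ ∅ := by
  intro h
  obtain ⟨c, h1, -⟩ := high_univ a b 1
  exact h1.2 0 (by omega) (by rw [h]; simp)

theorem isBorel_V (a b : Prop) : IsBorel (V a b) := by
  classical
  letI := scott
  letI : MeasurableSpace (Set ℕ) := borel (Set ℕ)
  haveI : BorelSpace (Set ℕ) := ⟨rfl⟩
  have hm : ∀ n : ℕ, MeasurableSet {X : Set ℕ | n ∈ X} := fun n => (isOpen_mem n).measurableSet
  have hm' : ∀ n : ℕ, Measurable fun X : Set ℕ => n ∈ X := fun n =>
    measurableSet_setOf.1 (hm n)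
  have hconf : Measurable conf := by
    unfold conf
    refine Measurable.exists fun n => Measurable.exists fun m => Measurable.exists fun k =>
      Measurable.exists fun l => ?_
    exact measurable_const.and ((hm' _).and (hm' _))
  have hcnt : ∀ n, Measurable (cnt n) := by
    intro n
    unfold cnt
    refine Finset.measurable_sum _ fun k _ => ?_
    exact Measurable.ite (hm _) measurable_const measurable_const
  have hodd : Measurable fun X => ∃ n, Odd (cnt n X) :=
    Measurable.exists fun n => (measurable_of_countable (fun k : ℕ => Odd k)).comp (hcnt n)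
  show MeasurableSet (V a b)
  unfold V
  refine measurableSet_setOf.2 ?_
  exact (hconf.not.and hodd).or ((hconf.and ((hm' 0).not.and measurable_const)).or
    (hconf.and ((hm' 0).and measurable_const)))

end Pool.Agent.H321Z.Wadge
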