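import Pool.Agent.H321Z.Wadge.Enum
import Pool.Agent.H321Z.Wadge.Scott

set_option autoImplicit false

namespace Pool.Agent.H321Z.Wadge

/-- The members of a family `C` of subsets of the Scott domain. -/
structure WPt (dual : Bool) (C : Set (Set (Set ℕ))) where
  set : Set (Set ℕ)
  mem : set ∈ C

/-- The Wadge preorder (with duals identified if `dual = true`). -/
instance (dual : Bool) (C : Set (Set (Set ℕ))) : Preorder (WPt dual C) where
  le S T := WLE dual S.set T.set
  le_refl S := WLE.refl dual S.set
  le_trans _ _ _ h1 h2 := WLE.trans h1 h2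

/-- The uniformly e-invariant maps with the property `P`. -/
structure FPt (rel : Bool) (P : (Set ℕ → Set ℕ) → Prop) where
  fn : Set ℕ → Set ℕ
  unif : UnifInv fn
  prop : P fn

/-- The preorder of comparison on a cone. -/
instance (rel : Bool) (P : (Set ℕ → Set ℕ) → Prop) : Preorder (FPt rel P) where
  le f g := ConeLE rel f.fn g.fn
  le_refl f := ConeLE.refl rel f.fn
  le_trans _ _ _ h1 h2 := ConeLE.trans h1 h2

end Pool.Agent.H321Z.Wadge
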